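import Pool.Agent.H61.HB.Stmts5
import Pool.Agent.H74.HB.FLU

/-!
Project HB, row LG3: `L²` energy with the norm of `H^(1/2)`; a copy of LGR (helper89).
-/

set_option autoImplicit false

namespace HB

open Set Filter

theorem lg3_cZ_nonneg : 0 ≤ cZ := by
  refine tsum_nonneg fun k => ?_
  have h : 0 ≤ sq k := add_nonneg (sq_nonneg _) (sq_nonneg _)
  exact inv_nonneg.2 (mul_nonneg h (Real.sqrt_nonneg _))

/-- the differential inequality -/
theorem lg3_ineq (hC : CANStmt) (hT : TS3Stmt) (hD : DIVStmt) (hG : GR3Stmt) {u : V}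
    (hm : Mem 2 u) (hr : Rl u) {ν : ℝ} (hν : 0 < ν) :
    -2 * prd (u 0) (dot u (u 0)) - 2 * prd (u 1) (dot u (u 1)) ≤
      ν * dsq u + (cZ + 1) / ν * hp u * flu u := by
  have hd := hG.2.1 u hm
  have hds : 0 ≤ dsq u := Finset.sum_nonneg fun j _ => flu_dsS_nonneg _
  have hcw : 0 ≤ cZ := lg3_cZ_nonneg
  have key : ∀ j, -2 * prd (u j) (dot u (u j)) ≤
      √(hp u) * (2 * √cZ * √(dsS (u j))) * √(flS (u j)) := by
    intro j
    have h1 := hC u (u j) hm hr (hm j)
    have h2 := hT u (u j) hm (hm j)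
    have h3 : (tr3 (dvg u) (u j)).re ≤ ‖tr3 (dvg u) (u j)‖ := Complex.re_le_norm _
    have h5 : 2 * √cZ * √(hp u) * √(dsS (u j)) * √(flS (u j)) =
        √(hp u) * (2 * √cZ * √(dsS (u j))) * √(flS (u j)) := by
      ring
    linarith
  have h0 := key 0
  have h1 := key 1
  have f0 := (hD.2.2 (u 0) (hm 0)).1
  have f1 := (hD.2.2 (u 1) (hm 1)).1
  have d0 := flu_dsS_nonneg (u 0)
  have d1 := flu_dsS_nonneg (u 1)
  have hfl : 0 ≤ flu u := by
    simp only [flu, Fin.sum_univ_two]
    exact add_nonneg f0 f1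
  have hgr : 0 ≤ hp u := hfl.trans hd.2.2.1
  have cs : √(dsS (u 0)) * √(flS (u 0)) + √(dsS (u 1)) * √(flS (u 1)) ≤
      √(dsq u) * √(flu u) := by
    simp only [dsq, flu, Fin.sum_univ_two]
    rw [← Real.sqrt_mul (add_nonneg d0 d1)]
    apply Real.le_sqrt_of_sq_le
    have e0 := Real.sq_sqrt f0
    have e1 := Real.sq_sqrt f1
    have e2 := Real.sq_sqrt d0
    have e3 := Real.sq_sqrt d1
    have : (dsS (u 0) + dsS (u 1)) * (flS (u 0) + flS (u 1)) =
        (√(dsS (u 0)) ^ 2 + √(dsS (u 1)) ^ 2) * (√(flS (u 0)) ^ 2 + √(flS (u 1)) ^ 2) := by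
      rw [e0, e1, e2, e3]
    rw [this]
    nlinarith [sq_nonneg (√(dsS (u 0)) * √(flS (u 1)) - √(dsS (u 1)) * √(flS (u 0)))]
  have step : -2 * prd (u 0) (dot u (u 0)) - 2 * prd (u 1) (dot u (u 1)) ≤
      2 * √(dsq u) * (√cZ * √(hp u) * √(flu u)) := by
    calc -2 * prd (u 0) (dot u (u 0)) - 2 * prd (u 1) (dot u (u 1))
        ≤ √(hp u) * (2 * √cZ * √(dsS (u 0))) * √(flS (u 0)) +
          √(hp u) * (2 * √cZ * √(dsS (u 1))) * √(flS (u 1)) := by linarith
      _ = (2 * √cZ * √(hp u)) *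
          (√(dsS (u 0)) * √(flS (u 0)) + √(dsS (u 1)) * √(flS (u 1))) := by ring
      _ ≤ (2 * √cZ * √(hp u)) * (√(dsq u) * √(flu u)) :=
          mul_le_mul_of_nonneg_left cs (by positivity)
      _ = _ := by ring
  set a := √(dsq u) with ha
  set b := √cZ * √(hp u) * √(flu u) with hb
  have ea : a ^ 2 = dsq u := Real.sq_sqrt hds
  have eb : b ^ 2 = cZ * hp u * flu u := by
    rw [hb, mul_pow, mul_pow, Real.sq_sqrt hcw, Real.sq_sqrt hgr, Real.sq_sqrt hfl]
  have amgm : 2 * a * b ≤ ν * a ^ 2 + 1 / ν * b ^ 2 := by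
    have h4 : 0 ≤ 1 / ν * (b - ν * a) ^ 2 := by positivity
    have h5 : 1 / ν * (b - ν * a) ^ 2 = 1 / ν * b ^ 2 - 2 * a * b + ν * a ^ 2 := by
      field_simp
      ring
    linarith
  rw [ea, eb] at amgm
  have h6 : 1 / ν * (cZ * hp u * flu u) ≤ (cZ + 1) / ν * hp u * flu u := by
    have h7 : 0 ≤ 1 / ν * (hp u * flu u) := by positivity
    have h8 : (cZ + 1) / ν * hp u * flu u =
        1 / ν * (cZ * hp u * flu u) + 1 / ν * (hp u * flu u) := by ring
    linarith
  linarith

theorem lg3_thm (hE : ENEStmt) (hC : CANStmt) (hTr : TS3Stmt) (hG : GR3Stmt) (hGC : GC3Stmt)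
    (hD : DIVStmt) (hM : MMBStmt) : LG3Stmt := by
  have hcw : 0 ≤ cZ := lg3_cZ_nonneg
  refine ⟨cZ + 1, by positivity, ?_⟩
  intro ν s T v hν hs hT H hR
  set C := cZ + 1 with hCd
  have hC0 : 0 < C := by positivity
  obtain ⟨hDc, hd⟩ := flu_deriv hE hν hs hT H
  have hgc : ContinuousOn (fun t => hp (v t)) (Icc 0 T) := (hGC ν s T v v hs H H).2.1
  have hm : ∀ t ∈ Icc 0 T, Mem 2 (v t) := fun t ht =>
    (hM.2.2.2.2.1 2 s (v t) hs (H.cts.1 t ht)).1
  have hcF : ContinuousOn (fun t => flu (v t)) (Icc 0 T) := fun t ht => (hd t ht).continuousWithinAt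
  have hF0 : ∀ t ∈ Icc 0 T, 0 ≤ flu (v t) := fun t ht =>
    Finset.sum_nonneg fun j _ => (hD.2.2 _ (hm t ht j)).1
  have hFD : ∀ t ∈ Icc 0 T, flu (v t) ≤ dsq (v t) := fun t ht =>
    Finset.sum_le_sum fun j _ => (hD.2.2 _ (hm t ht j)).2.1
  have hg0 : ∀ t ∈ Icc 0 T, 0 ≤ hp (v t) := fun t ht =>
    (hF0 t ht).trans (hG.2.1 _ (hm t ht)).2.2.1
  -- the derivative
  have hder : ∀ x ∈ Icc 0 T, -2 * ν * dsq (v x) - 2 * prd (v x 0) (dot (v x) (v x 0)) -
        2 * prd (v x 1) (dot (v x) (v x 1)) ≤ -ν * dsq (v x) + C / ν * hp (v x) * flu (v x) := by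
    intro x hx
    have h1 := lg3_ineq hC hTr hD hG (hm x hx) (hR x hx) hν
    linarith
  -- the integrals
  set g : ℝ → ℝ := Set.IccExtend hT ((Set.Icc 0 T).domRestrict fun t => hp (v t)) with hgd
  have hgcc : Continuous g := (continuousOn_iff_continuous_domRestrict.1 hgc).Icc_extend'
  have hge : ∀ r ∈ Set.Icc 0 T, g r = hp (v r) := fun r hr => by
    rw [hgd, Set.IccExtend_of_mem hT _ hr]
    rfl
  set q : ℝ → ℝ := Set.IccExtend hT ((Set.Icc 0 T).domRestrict fun t => dsq (v t)) with hqd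
  have hqcc : Continuous q := (continuousOn_iff_continuous_domRestrict.1 hDc).Icc_extend'
  have hqe : ∀ r ∈ Set.Icc 0 T, q r = dsq (v r) := fun r hr => by
    rw [hqd, Set.IccExtend_of_mem hT _ hr]
    rfl
  have hgi : ∀ t ∈ Icc 0 T, ∫ r in (0 : ℝ)..t, hp (v r) = ∫ r in (0 : ℝ)..t, g r := by
    intro t ht
    refine intervalIntegral.integral_congr fun r hr => ?_
    rw [Set.uIcc_of_le ht.1] at hr
    exact (hge r ⟨hr.1, hr.2.trans ht.2⟩).symm
  have hqi : ∀ t ∈ Icc 0 T, ∫ r in (0 : ℝ)..t, dsq (v r) = ∫ r in (0 : ℝ)..t, q r := by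
    intro t ht
    refine intervalIntegral.integral_congr fun r hr => ?_
    rw [Set.uIcc_of_le ht.1] at hr
    exact (hqe r ⟨hr.1, hr.2.trans ht.2⟩).symm
  set Gi : ℝ → ℝ := fun t => ∫ r in (0 : ℝ)..t, g r with hGi
  set Qi : ℝ → ℝ := fun t => ∫ r in (0 : ℝ)..t, q r with hQi
  have hGd : ∀ x : ℝ, HasDerivAt Gi (g x) x := fun x =>
    intervalIntegral.integral_hasDerivAt_right (hgcc.intervalIntegrable _ _)
      (hgcc.stronglyMeasurableAtFilter _ _) hgcc.continuousAt
  have hQd : ∀ x : ℝ, HasDerivAt Qi (q x) x := fun x =>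
    intervalIntegral.integral_hasDerivAt_right (hqcc.intervalIntegrable _ _)
      (hqcc.stronglyMeasurableAtFilter _ _) hqcc.continuousAt
  have hGc : Continuous Gi := continuous_iff_continuousAt.2 fun x => (hGd x).continuousAt
  have hQc : Continuous Qi := continuous_iff_continuousAt.2 fun x => (hQd x).continuousAt
  have hG00 : Gi 0 = 0 := by simp [hGi]
  have hQ00 : Qi 0 = 0 := by simp [hQi]
  have hGnn : ∀ t ∈ Icc 0 T, 0 ≤ Gi t := by
    intro t ht
    refine intervalIntegral.integral_nonneg ht.1 fun r hr => ?_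
    have hr' : r ∈ Icc 0 T := ⟨hr.1, hr.2.trans ht.2⟩
    rw [hge r hr']
    exact hg0 r hr'
  -- first part
  have hone : ∀ t ∈ Icc 0 T, flu (v t) ≤ flu (v 0) * Real.exp (-ν * t + C / ν * Gi t) := by
    have hanti : AntitoneOn (fun t => flu (v t) * Real.exp (ν * t - C / ν * Gi t)) (Icc 0 T) := by
      refine antitoneOn_of_hasDerivWithinAt_nonpos (convex_Icc 0 T)
        (f' := fun x => (-2 * ν * dsq (v x) - 2 * prd (v x 0) (dot (v x) (v x 0)) -
          2 * prd (v x 1) (dot (v x) (v x 1))) * Real.exp (ν * x - C / ν * Gi x) +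
          flu (v x) * (Real.exp (ν * x - C / ν * Gi x) * (ν - C / ν * g x)))
        (hcF.mul (by fun_prop)) ?_ ?_
      · intro x hx
        have h1 := (hd x (interior_subset hx)).mono (interior_subset (s := Icc 0 T))
        have h2 : HasDerivAt (fun x => Real.exp (ν * x - C / ν * Gi x))
            (Real.exp (ν * x - C / ν * Gi x) * (ν - C / ν * g x)) x := by
          have h3 : HasDerivAt (fun x => ν * x - C / ν * Gi x) (ν - C / ν * g x) x := by
            have h5 : HasDerivAt (fun x => ν * x) ν x := by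
              simpa using (hasDerivAt_id x).const_mul ν
            exact h5.sub ((hGd x).const_mul (C / ν))
          exact h3.exp
        exact h1.mul h2.hasDerivWithinAt
      · intro x hx
        have hx' := interior_subset hx
        have h1 := hder x hx'
        have h2 := hFD x hx'
        have h3 : 0 < Real.exp (ν * x - C / ν * Gi x) := Real.exp_pos _
        have h4 : (-2 * ν * dsq (v x) - 2 * prd (v x 0) (dot (v x) (v x 0)) -
          2 * prd (v x 1) (dot (v x) (v x 1))) + flu (v x) * (ν - C / ν * g x) ≤ 0 := by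
          have h5 := mul_le_mul_of_nonneg_left h2 hν.le
          rw [hge x hx']
          have h6 : flu (v x) * (ν - C / ν * hp (v x)) =
            ν * flu (v x) - C / ν * hp (v x) * flu (v x) := by ring
          rw [h6]
          linarith
        have h7 : (-2 * ν * dsq (v x) - 2 * prd (v x 0) (dot (v x) (v x 0)) -
          2 * prd (v x 1) (dot (v x) (v x 1))) * Real.exp (ν * x - C / ν * Gi x) +
          flu (v x) * (Real.exp (ν * x - C / ν * Gi x) * (ν - C / ν * g x)) =
          ((-2 * ν * dsq (v x) - 2 * prd (v x 0) (dot (v x) (v x 0)) -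
          2 * prd (v x 1) (dot (v x) (v x 1))) + flu (v x) * (ν - C / ν * g x)) *
            Real.exp (ν * x - C / ν * Gi x) := by ring
        show _ ≤ 0
        rw [h7]
        exact mul_nonpos_of_nonpos_of_nonneg h4 h3.le
    intro t ht
    have h1 := hanti ⟨le_refl 0, hT⟩ ht ht.1
    simp only [mul_zero, hG00, sub_zero, Real.exp_zero, mul_one] at h1
    have h2 : 0 < Real.exp (ν * t - C / ν * Gi t) := Real.exp_pos _
    have h3 : Real.exp (-ν * t + C / ν * Gi t) = (Real.exp (ν * t - C / ν * Gi t))⁻¹ := by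
      rw [← Real.exp_neg]; congr 1; ring
    rw [h3, ← div_eq_mul_inv, le_div_iff₀ h2]
    exact h1
  intro t ht
  rw [hgi t ht, hqi t ht]
  refine ⟨hone t ht, ?_⟩
  -- second part
  have h0m : (0 : ℝ) ∈ Icc 0 T := ⟨le_refl 0, hT⟩
  have hanti : AntitoneOn (fun t => flu (v t) + ν * Qi t - flu (v 0) * Real.exp (C / ν * Gi t))
      (Icc 0 T) := by
    refine antitoneOn_of_hasDerivWithinAt_nonpos (convex_Icc 0 T)
      (f' := fun x => (-2 * ν * dsq (v x) - 2 * prd (v x 0) (dot (v x) (v x 0)) -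
        2 * prd (v x 1) (dot (v x) (v x 1))) + ν * q x -
        flu (v 0) * (Real.exp (C / ν * Gi x) * (C / ν * g x)))
      ((hcF.add (by fun_prop)).sub (by fun_prop)) ?_ ?_
    · intro x hx
      have h1 := (hd x (interior_subset hx)).mono (interior_subset (s := Icc 0 T))
      have h2 : HasDerivAt (fun x => Real.exp (C / ν * Gi x))
          (Real.exp (C / ν * Gi x) * (C / ν * g x)) x := ((hGd x).const_mul (C / ν)).exp
      exact (h1.add ((hQd x).const_mul ν).hasDerivWithinAt).sub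
        (h2.const_mul (flu (v 0))).hasDerivWithinAt
    · intro x hx
      have hx' := interior_subset hx
      have h1 := hder x hx'
      have h2 := hone x hx'
      have h3 : Real.exp (-ν * x + C / ν * Gi x) ≤ Real.exp (C / ν * Gi x) := by
        apply Real.exp_le_exp.2
        have := mul_nonneg hν.le hx'.1
        linarith
      have h4 : flu (v x) ≤ flu (v 0) * Real.exp (C / ν * Gi x) :=
        h2.trans (mul_le_mul_of_nonneg_left h3 (hF0 0 h0m))
      have h5 : 0 ≤ C / ν * hp (v x) := mul_nonneg (by positivity) (hg0 x hx')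
      have h6 := mul_le_mul_of_nonneg_left h4 h5
      show (-2 * ν * dsq (v x) - 2 * prd (v x 0) (dot (v x) (v x 0)) -
        2 * prd (v x 1) (dot (v x) (v x 1))) + ν * q x -
        flu (v 0) * (Real.exp (C / ν * Gi x) * (C / ν * g x)) ≤ 0
      rw [hqe x hx', hge x hx']
      have h7 : flu (v 0) * (Real.exp (C / ν * Gi x) * (C / ν * hp (v x))) =
        C / ν * hp (v x) * (flu (v 0) * Real.exp (C / ν * Gi x)) := by ring
      rw [h7]
      linarith
  have h1 := hanti h0m ht ht.1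
  simp only [hG00, hQ00, mul_zero, Real.exp_zero, mul_one, add_zero, sub_self] at h1
  have h2 := hF0 t ht
  have h3 : ν * Qi t ≤ flu (v 0) * Real.exp (C / ν * Gi t) := by linarith
  have h4 : 0 ≤ C / ν * Gi t := mul_nonneg (by positivity) (hGnn t ht)
  have h5 : Real.exp (C / ν * Gi t) ≤ Real.exp (2 * (C / ν * Gi t)) := by
    apply Real.exp_le_exp.2
    linarith
  have h6 := mul_le_mul_of_nonneg_left h5 (hF0 0 h0m)
  show Qi t ≤ flu (v 0) / ν * Real.exp (2 * (C / ν * Gi t))
  rw [div_mul_eq_mul_div, le_div_iff₀ hν]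
  linarith

end HB
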